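import Mathlib

set_option autoImplicit false

namespace Pool.Agent.Results.MP_49314d_al.NoUniversal

open LaurentPolynomial

/-- A group is right-orderable if it admits a total order invariant under right multiplication. -/
def RightOrderable (G : Type) [Group G] : Prop :=
  ∃ _o : LinearOrder G, ∀ x y z : G, x ≤ y → x * z ≤ y * z

/-- A universal countable right-orderable group: a countable right-orderable group into which
every countable right-orderable group embeds. -/
def IsUniversalCountableRO (U : Type) [Group U] : Prop :=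
  Countable U ∧ RightOrderable U ∧
    ∀ (G : Type) [Group G], Countable G → RightOrderable G →
      ∃ f : G →* U, Function.Injective f

/-- the underlying set of the groups `Γ_C` -/
@[ext]
structure Gam (C : ℤ → ℤ) where
  k : ℤ
  u : ℤ[T;T⁻¹]
  z : ℤ

namespace Gam

variable {C : ℤ → ℤ}

/-- the functional `T^m ↦ C m` -/
noncomputable def Phi (C : ℤ → ℤ) : ℤ[T;T⁻¹] →+ ℤ :=
  (Finsupp.liftAddHom (fun m : ℤ => (AddMonoidHom.mulRight (C m) : ℤ →+ ℤ))).comp
    (AddMonoidAlgebra.coeffAddEquiv : ℤ[T;T⁻¹] ≃+ (ℤ →₀ ℤ)).toAddMonoidHom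

theorem Phi_T (m : ℤ) : Phi C (T m) = C m := by
  have : Phi C (T m) = (Finsupp.liftAddHom (fun m : ℤ => (AddMonoidHom.mulRight (C m) : ℤ →+ ℤ)))
      (Finsupp.single m 1) := rfl
  rw [this, Finsupp.liftAddHom_apply_single]
  simp

noncomputable instance : One (Gam C) := ⟨⟨0, 0, 0⟩⟩
noncomputable instance : Mul (Gam C) :=
  ⟨fun x y => ⟨x.k + y.k, x.u + T x.k * y.u, x.z + y.z + Phi C (invert x.u * (T x.k * y.u))⟩⟩
noncomputable instance : Inv (Gam C) :=
  ⟨fun x => ⟨-x.k, -(T (-x.k) * x.u), -x.z + Phi C (invert x.u * x.u)⟩⟩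

@[simp] theorem one_k : (1 : Gam C).k = 0 := rfl
@[simp] theorem one_u : (1 : Gam C).u = 0 := rfl
@[simp] theorem one_z : (1 : Gam C).z = 0 := rfl
@[simp] theorem mul_k (x y : Gam C) : (x * y).k = x.k + y.k := rfl
@[simp] theorem mul_u (x y : Gam C) : (x * y).u = x.u + T x.k * y.u := rfl
@[simp] theorem mul_z (x y : Gam C) :
    (x * y).z = x.z + y.z + Phi C (invert x.u * (T x.k * y.u)) := rfl
@[simp] theorem inv_k (x : Gam C) : (x⁻¹).k = -x.k := rfl
@[simp] theorem inv_u (x : Gam C) : (x⁻¹).u = -(T (-x.k) * x.u) := rfl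
@[simp] theorem inv_z (x : Gam C) : (x⁻¹).z = -x.z + Phi C (invert x.u * x.u) := rfl

theorem T_cancel (a b : ℤ) (p q : ℤ[T;T⁻¹]) :
    (T (-a) * p) * (T (a + b) * q) = p * (T b * q) := by
  have : (T (-a) * T (a + b) : ℤ[T;T⁻¹]) = T b := by
    rw [← T_add]; congr 1; ring
  calc (T (-a) * p) * (T (a + b) * q) = (T (-a) * T (a + b)) * (p * q) := by ring
    _ = p * (T b * q) := by rw [this]; ring

noncomputable instance : Group (Gam C) :=
  Group.ofLeftAxioms
    (by
      intro x y w
      ext1
      · simp [add_assoc]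
      · simp only [mul_u, mul_k, T_add]; ring
      · simp only [mul_z, mul_u, mul_k, map_add, map_mul, invert_T, add_mul, mul_add]
        rw [T_cancel]
        have : (T (x.k + y.k) * w.u : ℤ[T;T⁻¹]) = T x.k * (T y.k * w.u) := by
          rw [T_add]; ring
        rw [this]
        ring)
    (by intro x; ext1 <;> simp)
    (by
      intro x
      ext1
      · simp
      · simp
      · simp only [mul_z, inv_z, inv_u, inv_k, map_neg, map_mul, invert_T, neg_neg, one_z, neg_mul]
        have : (T x.k * invert x.u * (T (-x.k) * x.u) : ℤ[T;T⁻¹]) = invert x.u * x.u := by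
          have h : (T x.k * T (-x.k) : ℤ[T;T⁻¹]) = 1 := by
            rw [← T_add]; simp
          calc (T x.k * invert x.u * (T (-x.k) * x.u) : ℤ[T;T⁻¹])
              = (T x.k * T (-x.k)) * (invert x.u * x.u) := by ring
            _ = _ := by rw [h, one_mul]
        rw [this]
        ring)

/-- coordinates in a lexicographic product -/
noncomputable def toL (x : Gam C) : ℤ ×ₗ (Lex (ℤ →₀ ℤ) ×ₗ ℤ) :=
  toLex (x.k, toLex (toLex x.u.coeff, x.z))

theorem toL_injective : Function.Injective (toL : Gam C → _) := by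
  intro x y h
  have h1 := congrArg ofLex h
  simp only [toL, ofLex_toLex, Prod.mk.injEq, EmbeddingLike.apply_eq_iff_eq] at h1
  exact Gam.ext h1.1 (AddMonoidAlgebra.coeff_injective h1.2.1) h1.2.2

theorem rightOrderable : RightOrderable (Gam C) := by
  refine ⟨LinearOrder.lift' toL toL_injective, ?_⟩
  intro x y w h
  change toL x ≤ toL y at h
  change toL (x * w) ≤ toL (y * w)
  simp only [toL, Prod.Lex.toLex_le_toLex, mul_k, mul_u, mul_z] at h ⊢
  rcases h with h | ⟨hk, h⟩
  · left
    simpa using h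
  · right
    refine ⟨by simp [hk], ?_⟩
    rcases h with h | ⟨hu, hz⟩
    · left
      rw [hk]
      simp only [AddMonoidAlgebra.coeff_add, toLex_add]
      exact add_lt_add_left h _
    · right
      have hu' : x.u = y.u := AddMonoidAlgebra.coeff_injective (toLex.injective hu)
      rw [hk, hu']
      refine ⟨rfl, ?_⟩
      linarith

instance : Countable (Gam C) :=
  Function.Injective.countable (f := fun x : Gam C => (x.k, x.u.coeff, x.z)) (by
    intro x y h
    simp only [Prod.mk.injEq] at h
    exact Gam.ext h.1 (AddMonoidAlgebra.coeff_injective h.2.1) h.2.2)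

variable (C) in
/-- the shift -/
noncomputable def tt : Gam C := ⟨1, 0, 0⟩

variable (C) in
/-- the base generator -/
noncomputable def gg : Gam C := ⟨0, 1, 0⟩

theorem tt_pow (n : ℕ) : (tt C) ^ n = ⟨n, 0, 0⟩ := by
  induction n with
  | zero => rfl
  | succ n ih =>
    rw [pow_succ, ih]
    ext1
    · simp [tt]
    · simp [tt]
    · simp [tt]

theorem conj_gg (n : ℕ) : (tt C) ^ n * gg C * ((tt C) ^ n)⁻¹ = ⟨0, T n, 0⟩ := by
  rw [tt_pow]
  ext1
  · simp [gg]
  · simp [gg]
  · simp [gg]

theorem comm_iff (n : ℕ) :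
    Commute (gg C) ((tt C) ^ n * gg C * ((tt C) ^ n)⁻¹) ↔ C n = C (-n) := by
  rw [conj_gg]
  have h1 : (gg C * ⟨0, T n, 0⟩ : Gam C) = ⟨0, 1 + T n, C n⟩ := by
    ext1
    · simp [gg]
    · simp [gg]
    · simp [gg, Phi_T]
  have h2 : ((⟨0, T n, 0⟩ : Gam C) * gg C : Gam C) = ⟨0, 1 + T n, C (-n)⟩ := by
    ext1
    · simp [gg]
    · simp [gg, add_comm]
    · simp [gg, Phi_T]
  rw [Commute, SemiconjBy, h1, h2]
  simp

end Gam

/-- the coefficient function attached to a set of natural numbers -/
noncomputable def CS (S : Set ℕ) (m : ℤ) : ℤ :=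
  open Classical in if 0 < m ∧ (m.toNat - 1) ∈ S then 1 else 0

theorem CS_iff (S : Set ℕ) (n : ℕ) :
    CS S ((n + 1 : ℕ) : ℤ) = CS S (-((n + 1 : ℕ) : ℤ)) ↔ n ∉ S := by
  have h2 : CS S (-((n + 1 : ℕ) : ℤ)) = 0 := by
    rw [CS, if_neg]
    rintro ⟨h, -⟩
    push_cast at h
    linarith
  rw [h2, CS]
  by_cases h : n ∈ S
  · rw [if_pos]
    · simp [h]
    · refine ⟨by positivity, ?_⟩
      simpa using h
  · rw [if_neg]
    · simp [h]
    · rintro ⟨-, h'⟩
      apply h
      simpa using h'

/-- There is no universal countable right-orderable group. -/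
theorem result : ¬ ∃ (U : Type) (_ : Group U), IsUniversalCountableRO U := by
  rintro ⟨U, _, hU, -, huniv⟩
  have hf : ∀ S : Set ℕ, ∃ f : Gam (CS S) →* U, Function.Injective f :=
    fun S => huniv (Gam (CS S)) inferInstance Gam.rightOrderable
  choose f hf using hf
  let F : Set ℕ → U × U := fun S => (f S (Gam.tt _), f S (Gam.gg _))
  have key : ∀ (S : Set ℕ) (n : ℕ), n ∉ S ↔
      Commute (F S).2 ((F S).1 ^ (n + 1) * (F S).2 * ((F S).1 ^ (n + 1))⁻¹) := by
    intro S n
    rw [← CS_iff S n, ← Gam.comm_iff (C := CS S) (n + 1)]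
    simp only [F]
    rw [← map_pow, ← map_inv, ← map_mul, ← map_mul]
    constructor
    · intro h
      exact h.map (f S)
    · intro h
      exact hf S (by
        have := h.eq
        rwa [← map_mul, ← map_mul] at this)
  have hF : Function.Injective F := by
    intro S S' h
    ext n
    have h1 := key S n
    have h2 := key S' n
    rw [h] at h1
    have h3 : n ∉ S ↔ n ∉ S' := h1.trans h2.symm
    exact not_iff_not.1 h3
  obtain ⟨e, he⟩ := exists_injective_nat (U × U)
  exact Function.cantor_injective (fun S => e (F S)) (he.comp hF)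

end Pool.Agent.Results.MP_49314d_al.NoUniversal
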